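import Mathlib

/-!
Banach spaces that are locally Lipschitz close to a dual space: definitions in plain form.
-/

namespace Pool.Agent.H4.SD

variable {X Y D : Type} [NormedAddCommGroup X] [NormedSpace ℝ X]
  [NormedAddCommGroup Y] [NormedSpace ℝ Y] [NormedAddCommGroup D] [NormedSpace ℝ D]

/-- `f` is linear with `‖f x‖ ≤ c ‖x‖` -/
def Bd (c : ℝ) (f : X → Y) : Prop := IsLinearMap ℝ f ∧ ∀ x, ‖f x‖ ≤ c * ‖x‖

variable (X Y) in
/-- `X` and `Y` are linearly isomorphic -/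
def Iso : Prop :=
  ∃ (f : X → Y) (g : Y → X) (c : ℝ), Bd c f ∧ Bd c g ∧ (∀ x, g (f x) = x) ∧ ∀ y, f (g y) = y

/-- `d ↦ P d` is a linear isometry of `D` onto the dual of `X` -/
def IsDual (P : D → X → ℝ) : Prop :=
  (∀ x, Bd ‖x‖ fun d => P d x) ∧ (∀ d, Bd ‖d‖ (P d)) ∧
    (∀ d, ∀ c ≥ 0, Bd c (P d) → ‖d‖ ≤ c) ∧ ∀ c g, Bd c g → ∃ d, P d = g

/-- `x ↦ T x` is a linear isomorphism of `X` onto `ℓ_p(Y)` (a linear isometry for `c = 1`) -/
def IsSum (p c : ℝ) (T : X → ℕ → Y) : Prop :=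
  (∀ n, IsLinearMap ℝ fun x => T x n) ∧
    (∀ x, ∃ s, HasSum (fun n => ‖T x n‖ ^ p) s ∧ ‖x‖ ^ p ≤ c * s ∧ s ≤ c * ‖x‖ ^ p) ∧
    ∀ u : ℕ → Y, Summable (fun n => ‖u n‖ ^ p) → ∃ x, T x = u

variable (X) in
/-- `X` is isomorphic to the dual of a normed space -/
def IsDualSpace : Prop :=
  ∃ (Z D : Type) (_ : NormedAddCommGroup Z) (_ : NormedSpace ℝ Z) (_ : NormedAddCommGroup D)
    (_ : NormedSpace ℝ D) (P : D → Z → ℝ), IsDual P ∧ Iso X D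

variable (X) in
/-- There is a bounded projection `p` of the bidual `E` of `X` onto `X` such that
`k * min ‖p z‖ ‖z - p z‖ ≤ ‖z‖` for all `z` in `E`. -/
def HasProjection (k : ℝ) : Prop :=
  ∃ (D E : Type) (_ : NormedAddCommGroup D) (_ : NormedSpace ℝ D) (_ : NormedAddCommGroup E)
    (_ : NormedSpace ℝ E) (P : D → X → ℝ) (Q : E → D → ℝ) (p : E → X) (c : ℝ),
    IsDual P ∧ IsDual Q ∧ Bd c p ∧ (∀ x z, (∀ d, Q z d = P d x) → p z = x) ∧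
      ∀ z w, (∀ d, Q w d = Q z d - P d (p z)) → k * min ‖p z‖ ‖w‖ ≤ ‖z‖

variable (X) in
/-- `X` is isomorphic to `ℓ_p(X)` for some `1 ≤ p < ∞` -/
def IsStable : Prop := ∃ (p c : ℝ) (T : X → ℕ → X), 1 ≤ p ∧ IsSum p c T

/-- `f` is `K`-Lipschitz on the open set `U` and maps it into the open set `V`, where `g` is its
inverse -/
def Lip (K : ℝ) (U : Set X) (V : Set Y) (f : X → Y) (g : Y → X) : Prop :=
  IsOpen U ∧ (∀ x ∈ U, f x ∈ V ∧ g (f x) = x) ∧ ∀ x ∈ U, ∀ y ∈ U, ‖f x - f y‖ ≤ K * ‖x - y‖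

variable (X Y) in
/-- Some homeomorphism of a nonempty open subset of `Y` onto an open subset of `X` is
`K`-Lipschitz with `L`-Lipschitz inverse, where `K * L < k`. -/
def Close (k : ℝ) : Prop :=
  ∃ (U : Set Y) (V : Set X) (f : Y → X) (g : X → Y) (K L : ℝ), U.Nonempty ∧ 0 ≤ K ∧ 0 ≤ L ∧
    K * L < k ∧ Lip K U V f g ∧ Lip L V U g f

end Pool.Agent.H4.SD
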