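import Pool.Agent.H4.SD.Defs
import Pool.Agent.H23.Ell1

/-!
The plain form of Lipschitz rigidity for small distortion, derived from the bundled form.
-/

open Set TopologicalSpace NormedSpace
open scoped NNReal ENNReal

namespace Pool.Agent.H4.SD

variable {X Y D : Type} [NormedAddCommGroup X] [NormedSpace ℝ X]
  [NormedAddCommGroup Y] [NormedSpace ℝ Y] [NormedAddCommGroup D] [NormedSpace ℝ D]

/-- the bounded operator -/
noncomputable def Bd.clm {c : ℝ} {f : X → Y} (h : Bd c f) : X →L[ℝ] Y :=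
  (h.1.mk' f).mkContinuous c h.2

theorem Bd.clm_apply {c : ℝ} {f : X → Y} (h : Bd c f) (x : X) : h.clm x = f x := rfl

theorem bd_of_clm (T : X →L[ℝ] Y) : Bd ‖T‖ (fun x => T x) :=
  ⟨T.toLinearMap.isLinear, T.le_opNorm⟩

theorem Bd.mono {c c' : ℝ} {f : X → Y} (h : Bd c f) (hc : c ≤ c') : Bd c' f :=
  ⟨h.1, fun x => (h.2 x).trans (mul_le_mul_of_nonneg_right hc (norm_nonneg x))⟩

theorem iso_iff : Iso X Y ↔ Nonempty (X ≃L[ℝ] Y) := by
  constructor
  · rintro ⟨f, g, c, hf, hg, h1, h2⟩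
    exact ⟨ContinuousLinearEquiv.equivOfInverse hf.clm hg.clm h1 h2⟩
  · rintro ⟨e⟩
    refine ⟨fun x => e x, fun y => e.symm y,
      max ‖(e : X →L[ℝ] Y)‖ ‖(e.symm : Y →L[ℝ] X)‖, ?_, ?_, fun x => by simp, fun y => by simp⟩
    · exact (bd_of_clm (e : X →L[ℝ] Y)).mono (le_max_left _ _)
    · exact (bd_of_clm (e.symm : Y →L[ℝ] X)).mono (le_max_right _ _)

theorem dual_equiv {P : D → X → ℝ} (h : IsDual P) :
    ∃ F : D ≃ₗᵢ[ℝ] StrongDual ℝ X, ∀ d x, F d x = P d x := by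
  obtain ⟨h1, h2, h3, h4⟩ := h
  let L : D →ₗ[ℝ] StrongDual ℝ X :=
    { toFun := fun d => (h2 d).clm
      map_add' := fun d e => by
        ext x
        exact (h1 x).1.map_add d e
      map_smul' := fun t d => by
        ext x
        exact (h1 x).1.map_smul t d }
  have hL : ∀ d, ‖L d‖ = ‖d‖ := by
    intro d
    refine le_antisymm (ContinuousLinearMap.opNorm_le_bound _ (norm_nonneg d) (h2 d).2) ?_
    exact h3 d ‖L d‖ (norm_nonneg _) ⟨(h2 d).1, fun x => (L d).le_opNorm x⟩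
  have hs : Function.Surjective L := by
    intro g
    obtain ⟨d, hd⟩ := h4 ‖g‖ (fun x => g x) (bd_of_clm g)
    refine ⟨d, ?_⟩
    ext x
    exact congrFun hd x
  exact ⟨LinearIsometryEquiv.ofSurjective ⟨L, hL⟩ hs, fun d x => rfl⟩

theorem isDualSpace_of (h : IsDualSpace X) : ∃ (Z : Type) (_ : NormedAddCommGroup Z)
    (_ : NormedSpace ℝ Z), Nonempty (X ≃L[ℝ] (Z →L[ℝ] ℝ)) := by
  obtain ⟨Z, D, i1, i2, i3, i4, P, hP, hX⟩ := h
  obtain ⟨F, hF⟩ := dual_equiv hP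
  obtain ⟨e⟩ := iso_iff.1 hX
  exact ⟨Z, i1, i2, ⟨e.trans F.toContinuousLinearEquiv⟩⟩

theorem projection_of {k : ℝ} (h : HasProjection X k) :
    ∃ π : StrongDual ℝ (StrongDual ℝ X) →L[ℝ] X, (∀ x, π (inclusionInDoubleDual ℝ X x) = x) ∧
    ∀ ζ, k * min ‖π ζ‖ ‖ζ - inclusionInDoubleDual ℝ X (π ζ)‖ ≤ ‖ζ‖ := by
  obtain ⟨D, E, _, _, _, _, P, Q, p, c, hP, hQ, hp, h1, h2⟩ := h
  obtain ⟨F, hF⟩ := dual_equiv hP
  obtain ⟨H, hH⟩ := dual_equiv hQ
  let τ : StrongDual ℝ (StrongDual ℝ X) → E := fun ζ =>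
    H.symm (ζ.comp F.toLinearIsometry.toContinuousLinearMap)
  have hτ : ∀ ζ d, Q (τ ζ) d = ζ (F d) := by
    intro ζ d
    rw [← hH]
    simp [τ]
  have hτn : ∀ ζ, ‖τ ζ‖ = ‖ζ‖ := by
    intro ζ
    rw [show ‖τ ζ‖ = ‖ζ.comp F.toLinearIsometry.toContinuousLinearMap‖ from
      LinearIsometryEquiv.norm_map _ _]
    exact ContinuousLinearMap.opNorm_comp_linearIsometryEquiv ζ F
  have hadd : ∀ ζ ξ, τ (ζ + ξ) = τ ζ + τ ξ := by
    intro ζ ξ
    simp only [τ]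
    rw [← map_add]
    rfl
  have hsmul : ∀ (t : ℝ) ζ, τ (t • ζ) = t • τ ζ := by
    intro t ζ
    simp only [τ]
    rw [← map_smul]
    rfl
  have hB : Bd c (fun ζ => p (τ ζ)) := by
    refine ⟨⟨fun ζ ξ => ?_, fun t ζ => ?_⟩, fun ζ => ?_⟩
    · rw [hadd, hp.1.map_add]
    · rw [hsmul, hp.1.map_smul]
    · rw [← hτn ζ]
      exact hp.2 _
  refine ⟨hB.clm, fun x => ?_, fun ζ => ?_⟩
  · refine h1 x _ fun d => ?_
    rw [hτ, dual_def, hF]
  · rw [← hτn ζ, ← hτn (ζ - inclusionInDoubleDual ℝ X (hB.clm ζ))]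
    refine h2 (τ ζ) _ fun d => ?_
    rw [hτ, hτ, ContinuousLinearMap.sub_apply, dual_def, hF]
    rfl

theorem isSum_equiv [CompleteSpace X] [CompleteSpace Y] {p c : ℝ} {T : X → ℕ → Y} (hp : 1 ≤ p)
    (h : IsSum p c T) :
    ∃ (_ : Fact ((1 : ℝ≥0∞) ≤ ENNReal.ofReal p)) (F : X ≃L[ℝ] lp (fun _ : ℕ => Y) (ENNReal.ofReal p)),
      ∀ x n, F x n = T x n := by
  obtain ⟨h1, h2, h3⟩ := h
  have hp0 : 0 < p := lt_of_lt_of_le one_pos hp
  have htr : (ENNReal.ofReal p).toReal = p := ENNReal.toReal_ofReal hp0.le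
  have hfact : Fact ((1 : ℝ≥0∞) ≤ ENNReal.ofReal p) := ⟨by
    rw [← ENNReal.ofReal_one]
    exact ENNReal.ofReal_le_ofReal hp⟩
  refine ⟨hfact, ?_⟩
  have hmem : ∀ u : ℕ → Y, Memℓp (E := fun _ : ℕ => Y) u (ENNReal.ofReal p)
      ↔ Summable (fun n => ‖u n‖ ^ p) := by
    intro u
    rw [memℓp_gen_iff (by rw [htr]; exact hp0), htr]
  let L : X →ₗ[ℝ] lp (fun _ : ℕ => Y) (ENNReal.ofReal p) :=
    { toFun := fun x => ⟨fun n => T x n, (hmem _).2 (h2 x).choose_spec.1.summable⟩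
      map_add' := fun x y => by
        ext n
        exact (h1 n).map_add x y
      map_smul' := fun t x => by
        ext n
        exact (h1 n).map_smul t x }
  have hnorm : ∀ x, ∃ s, 0 ≤ s ∧ ‖L x‖ ^ p = s ∧ ‖x‖ ^ p ≤ c * s ∧ s ≤ c * ‖x‖ ^ p := by
    intro x
    obtain ⟨s, hs1, hs2, hs3⟩ := h2 x
    refine ⟨s, hs1.nonneg fun n => Real.rpow_nonneg (norm_nonneg _) _, ?_, hs2, hs3⟩
    have hn := lp.norm_rpow_eq_tsum (p := ENNReal.ofReal p) (by rw [htr]; exact hp0) (L x)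
    rw [htr] at hn
    rw [hn]
    exact hs1.tsum_eq
  have hc : ∀ x, ‖L x‖ ≤ (max c 0) ^ (1 / p) * ‖x‖ := by
    intro x
    obtain ⟨s, hs0, hs1, hs2, hs3⟩ := hnorm x
    have : ‖L x‖ ^ p ≤ ((max c 0) ^ (1 / p) * ‖x‖) ^ p := by
      rw [Real.mul_rpow (Real.rpow_nonneg (le_max_right _ _) _) (norm_nonneg _),
        ← Real.rpow_mul (le_max_right _ _), one_div_mul_cancel hp0.ne', Real.rpow_one, hs1]
      exact hs3.trans (mul_le_mul_of_nonneg_right (le_max_left _ _)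
        (Real.rpow_nonneg (norm_nonneg _) _))
    exact (Real.rpow_le_rpow_iff (norm_nonneg _) (by positivity) hp0).1 this
  have hinj : Function.Injective L := by
    rw [injective_iff_map_eq_zero]
    intro x hx
    obtain ⟨s, hs0, hs1, hs2, hs3⟩ := hnorm x
    rw [hx, norm_zero, Real.zero_rpow hp0.ne'] at hs1
    rw [← hs1, mul_zero] at hs2
    have : ‖x‖ ^ p = 0 := le_antisymm hs2 (Real.rpow_nonneg (norm_nonneg _) _)
    exact norm_eq_zero.1 ((Real.rpow_eq_zero (norm_nonneg _) hp0.ne').1 this)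
  have hsurj : Function.Surjective L := by
    intro u
    obtain ⟨x, hx⟩ := h3 (fun n => u n) ((hmem _).1 u.2)
    refine ⟨x, ?_⟩
    ext n
    exact congrFun hx n
  refine ⟨ContinuousLinearEquiv.ofBijective (L.mkContinuous _ hc) ?_ ?_, fun x n => ?_⟩
  · exact LinearMap.ker_eq_bot.2 hinj
  · exact LinearMap.range_eq_top.2 hsurj
  · rfl

theorem stable_of [CompleteSpace X] (h : IsStable X) :
    ∃ (p : ℝ≥0∞) (_ : Fact (1 ≤ p)), p ≠ ∞ ∧ Nonempty (X ≃L[ℝ] lp (fun _ : ℕ => X) p) := by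
  obtain ⟨p, c, T, hp, hT⟩ := h
  obtain ⟨hf, F, -⟩ := isSum_equiv hp hT
  exact ⟨_, hf, ENNReal.ofReal_ne_top, ⟨F⟩⟩

theorem close_of {k : ℝ} (h : Close X Y k) :
    ∃ (e : OpenPartialHomeomorph Y X) (K L : ℝ≥0), e.source.Nonempty ∧
    LipschitzOnWith K e e.source ∧ LipschitzOnWith L e.symm e.target ∧ (K : ℝ) * L < k := by
  obtain ⟨U, V, f, g, K, L, hne, hK, hL, hKL, ⟨f1, f2, f3⟩, ⟨g1, g2, g3⟩⟩ := h
  have lf : LipschitzOnWith K.toNNReal f U := by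
    refine LipschitzOnWith.of_dist_le_mul fun x hx y hy => ?_
    rw [dist_eq_norm, dist_eq_norm, Real.coe_toNNReal K hK]
    exact f3 x hx y hy
  have lg : LipschitzOnWith L.toNNReal g V := by
    refine LipschitzOnWith.of_dist_le_mul fun x hx y hy => ?_
    rw [dist_eq_norm, dist_eq_norm, Real.coe_toNNReal L hL]
    exact g3 x hx y hy
  let e : OpenPartialHomeomorph Y X :=
    { toFun := f
      invFun := g
      source := U
      target := V
      map_source' := fun x hx => (f2 x hx).1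
      map_target' := fun x hx => (g2 x hx).1
      left_inv' := fun x hx => (f2 x hx).2
      right_inv' := fun x hx => (g2 x hx).2
      open_source := f1
      open_target := g1
      continuousOn_toFun := lf.continuousOn
      continuousOn_invFun := lg.continuousOn }
  exact ⟨e, K.toNNReal, L.toNNReal, hne, lf, lg, by
    rw [Real.coe_toNNReal K hK, Real.coe_toNNReal L hL]
    exact hKL⟩

/-- distances are not changed by an isometric change of the target -/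
theorem close_comp {k : ℝ} (h : Close X Y k) (F : X ≃ₗᵢ[ℝ] D) : Close D Y k := by
  obtain ⟨U, V, f, g, K, L, hne, hK, hL, hKL, ⟨f1, f2, f3⟩, ⟨g1, g2, g3⟩⟩ := h
  refine ⟨U, F '' V, fun y => F (f y), fun d => g (F.symm d), K, L, hne, hK, hL, hKL,
    ⟨f1, fun y hy => ⟨⟨f y, (f2 y hy).1, rfl⟩, ?_⟩, fun y hy z hz => ?_⟩,
    ⟨F.toHomeomorph.isOpenMap V g1, ?_, ?_⟩⟩
  · simpa using (f2 y hy).2
  · rw [← map_sub, LinearIsometryEquiv.norm_map]
    exact f3 y hy z hz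
  · rintro _ ⟨x, hx, rfl⟩
    simpa using g2 x hx
  · rintro _ ⟨x, hx, rfl⟩ _ ⟨y, hy, rfl⟩
    rw [← map_sub, LinearIsometryEquiv.norm_map]
    simpa using g3 x hx y hy

theorem ell1_isometry [CompleteSpace X] {T : X → ℕ → ℝ} (h : IsSum 1 1 T) :
    Nonempty (X ≃ₗᵢ[ℝ] lp (fun _ : ℕ => ℝ) 1) := by
  have h' := h
  obtain ⟨h1, h2, h3⟩ := h
  have hmem : ∀ u : ℕ → ℝ, Memℓp (E := fun _ : ℕ => ℝ) u 1 ↔ Summable (fun n => ‖u n‖) := by
    intro u
    rw [memℓp_gen_iff (by simp)]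
    simp
  have h2' : ∀ x, HasSum (fun n => ‖T x n‖) ‖x‖ := by
    intro x
    obtain ⟨s, hs1, hs2, hs3⟩ := h2 x
    simp only [Real.rpow_one, one_mul] at hs1 hs2 hs3
    rwa [le_antisymm hs2 hs3]
  let L : X →ₗ[ℝ] lp (fun _ : ℕ => ℝ) 1 :=
    { toFun := fun x => ⟨fun n => T x n, (hmem _).2 (h2' x).summable⟩
      map_add' := fun x y => by
        ext n
        exact (h1 n).map_add x y
      map_smul' := fun t x => by
        ext n
        exact (h1 n).map_smul t x }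
  have hL : ∀ x, ‖L x‖ = ‖x‖ := by
    intro x
    rw [H23.Ell1.norm_eq]
    exact (h2' x).tsum_eq
  have hs : Function.Surjective L := by
    intro u
    obtain ⟨x, hx⟩ := h3 (fun n => u n) (by simpa using (hmem _).1 u.2)
    refine ⟨x, ?_⟩
    ext n
    exact congrFun hx n
  exact ⟨LinearIsometryEquiv.ofSurjective ⟨L, hL⟩ hs⟩

theorem main (X Y : Type) [NormedAddCommGroup X] [NormedSpace ℝ X] [CompleteSpace X]
    [NormedAddCommGroup Y] [NormedSpace ℝ Y] [CompleteSpace Y] (k : ℝ)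
    (h : (SeparableSpace X ∧ IsDualSpace X ∧ HasProjection X k ∧ IsStable X) ∨
      (k = 2 ∧ ∃ T : X → ℕ → ℝ, IsSum 1 1 T)) (he : Close X Y k) : Iso Y X := by
  rcases h with ⟨hsep, hZ, hπ, hXp⟩ | ⟨rfl, T, hT⟩
  · obtain ⟨Z, _, _, ⟨eZ⟩⟩ := isDualSpace_of hZ
    obtain ⟨π, hπ, hπκ⟩ := projection_of hπ
    obtain ⟨p, _, hp, hXp⟩ := stable_of hXp
    obtain ⟨e, K, L, hne, hK, hL, hKL⟩ := close_of he
    have hκ : 0 < k := lt_of_le_of_lt (by positivity) hKL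
    exact iso_iff.2
      (H23.nonempty_equiv_of_small_distortion eZ π hπ hκ hπκ hp hXp e hne hK hL hKL)
  · obtain ⟨F⟩ := ell1_isometry hT
    obtain ⟨e, K, L, hne, hK, hL, hKL⟩ := close_of (close_comp he F)
    obtain ⟨G⟩ := H23.Ell1.nonempty_equiv e hne hK hL hKL
    exact iso_iff.2 ⟨G.trans F.symm.toContinuousLinearEquiv⟩

end Pool.Agent.H4.SD
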